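import Pool.Agent.H308R3.DM.Stmts

set_option autoImplicit false

/-! Project DIAMOND, task GAP: the spectral gap of the lazy walk on an interval with killing. -/

namespace Pool.Agent.H431R3.DM

open Finset

/-- the ground state -/
noncomputable def ph (m i : ℕ) : ℝ := Real.sin (Real.pi * i / (m + 1))

lemma ph_zero (m : ℕ) : ph m 0 = 0 := by simp [ph]

lemma ph_last (m : ℕ) : ph m (m + 1) = 0 := by
  unfold ph
  have h : ((m : ℝ) + 1) ≠ 0 := by positivity
  push_cast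
  rw [mul_div_assoc, div_self h, mul_one, Real.sin_pi]

lemma ph_nonneg {m i : ℕ} (h : i ≤ m + 1) : 0 ≤ ph m i := by
  have hi : (i : ℝ) ≤ (m : ℝ) + 1 := by exact_mod_cast h
  apply Real.sin_nonneg_of_nonneg_of_le_pi (by positivity)
  rw [div_le_iff₀ (by positivity)]
  exact mul_le_mul_of_nonneg_left hi Real.pi_pos.le

lemma ph_pos {m i : ℕ} (h1 : 1 ≤ i) (h2 : i ≤ m) : 0 < ph m i := by
  have hi : (i : ℝ) < (m : ℝ) + 1 := by exact_mod_cast (by omega : i < m + 1)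
  have hi0 : (0 : ℝ) < i := by exact_mod_cast h1
  apply Real.sin_pos_of_pos_of_lt_pi (by positivity)
  rw [div_lt_iff₀ (by positivity)]
  exact mul_lt_mul_of_pos_left hi Real.pi_pos

lemma ph_sub (m i j : ℕ) : ph m j - ph m i =
    2 * Real.sin (Real.pi * ((j : ℝ) - i) / (2 * (m + 1))) *
      Real.cos (Real.pi * ((j : ℝ) + i) / (2 * (m + 1))) := by
  unfold ph
  have hm : ((m : ℝ) + 1) ≠ 0 := by positivity
  have e1 : (Real.pi * j / ((m : ℝ) + 1) - Real.pi * i / (m + 1)) / 2 =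
      Real.pi * ((j : ℝ) - i) / (2 * (m + 1)) := by
    field_simp
  have e2 : (Real.pi * j / ((m : ℝ) + 1) + Real.pi * i / (m + 1)) / 2 =
      Real.pi * ((j : ℝ) + i) / (2 * (m + 1)) := by
    field_simp
  rw [Real.sin_sub_sin, e1, e2]

lemma ph_inc {m i j : ℕ} (hij : i ≤ j) (h : i + j ≤ m + 1) : ph m i ≤ ph m j := by
  have h0 := ph_sub m i j
  have hijR : (i : ℝ) ≤ j := by exact_mod_cast hij
  have hR : (j : ℝ) + i ≤ (m : ℝ) + 1 := by
    have : ((i + j : ℕ) : ℝ) ≤ ((m + 1 : ℕ) : ℝ) := by exact_mod_cast h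
    push_cast at this; linarith
  have hi0 : (0 : ℝ) ≤ i := Nat.cast_nonneg _
  have hpi := Real.pi_pos
  have h1 : 0 ≤ Real.sin (Real.pi * ((j : ℝ) - i) / (2 * (m + 1))) := by
    apply Real.sin_nonneg_of_nonneg_of_le_pi
    · have : 0 ≤ (j : ℝ) - i := by linarith
      positivity
    · rw [div_le_iff₀ (by positivity)]
      apply mul_le_mul_of_nonneg_left _ hpi.le
      linarith
  have h2 : 0 ≤ Real.cos (Real.pi * ((j : ℝ) + i) / (2 * (m + 1))) := by
    apply Real.cos_nonneg_of_neg_pi_div_two_le_of_le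
    · have : 0 ≤ Real.pi * ((j : ℝ) + i) / (2 * (m + 1)) := by positivity
      linarith
    · rw [div_le_iff₀ (by positivity)]
      have : Real.pi / 2 * (2 * ((m : ℝ) + 1)) = Real.pi * ((m : ℝ) + 1) := by ring
      rw [this]
      exact mul_le_mul_of_nonneg_left hR hpi.le
  have h3 := mul_nonneg (mul_nonneg zero_le_two h1) h2
  linarith

lemma ph_dec {m i j : ℕ} (hij : i ≤ j) (hj : j ≤ m + 1) (h : m + 1 ≤ i + j) : ph m j ≤ ph m i := by
  have h0 := ph_sub m i j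
  have hijR : (i : ℝ) ≤ j := by exact_mod_cast hij
  have hjR : (j : ℝ) ≤ (m : ℝ) + 1 := by exact_mod_cast hj
  have hR : (m : ℝ) + 1 ≤ (j : ℝ) + i := by
    have : ((m + 1 : ℕ) : ℝ) ≤ ((i + j : ℕ) : ℝ) := by exact_mod_cast h
    push_cast at this; linarith
  have hi0 : (0 : ℝ) ≤ i := Nat.cast_nonneg _
  have hpi := Real.pi_pos
  have h1 : 0 ≤ Real.sin (Real.pi * ((j : ℝ) - i) / (2 * (m + 1))) := by
    apply Real.sin_nonneg_of_nonneg_of_le_pi
    · have : 0 ≤ (j : ℝ) - i := by linarith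
      positivity
    · rw [div_le_iff₀ (by positivity)]
      apply mul_le_mul_of_nonneg_left _ hpi.le
      linarith
  have h2 : Real.cos (Real.pi * ((j : ℝ) + i) / (2 * (m + 1))) ≤ 0 := by
    apply Real.cos_nonpos_of_pi_div_two_le_of_le
    · rw [le_div_iff₀ (by positivity)]
      have : Real.pi / 2 * (2 * ((m : ℝ) + 1)) = Real.pi * ((m : ℝ) + 1) := by ring
      rw [this]
      exact mul_le_mul_of_nonneg_left hR hpi.le
    · rw [div_le_iff₀ (by positivity)]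
      have : (Real.pi + Real.pi / 2) * (2 * ((m : ℝ) + 1)) = Real.pi * (3 * ((m : ℝ) + 1)) := by ring
      rw [this]
      apply mul_le_mul_of_nonneg_left _ hpi.le
      linarith
  have h3 := mul_nonpos_of_nonneg_of_nonpos (mul_nonneg zero_le_two h1) h2
  linarith

lemma ph_rec (m k : ℕ) : ph m k + 2 * ph m (k + 1) + ph m (k + 2) =
    4 * Real.cos (Real.pi / (2 * (m + 1))) ^ 2 * ph m (k + 1) := by
  unfold ph
  have hm : ((m : ℝ) + 1) ≠ 0 := by positivity
  have e1 : Real.pi * (k : ℕ) / ((m : ℝ) + 1) =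
      Real.pi * ((k + 1 : ℕ) : ℝ) / (m + 1) - Real.pi / (m + 1) := by
    push_cast; field_simp; ring
  have e2 : Real.pi * ((k + 2 : ℕ) : ℝ) / ((m : ℝ) + 1) =
      Real.pi * ((k + 1 : ℕ) : ℝ) / (m + 1) + Real.pi / (m + 1) := by
    push_cast; field_simp; ring
  have e3 : Real.cos (Real.pi / (m + 1)) = 2 * Real.cos (Real.pi / (2 * (m + 1))) ^ 2 - 1 := by
    rw [← Real.cos_two_mul]
    congr 1
    field_simp
  rw [e1, e2, Real.sin_sub, Real.sin_add, e3]
  ring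

lemma conv (m : ℕ) (f : ℕ → ℝ) : ∑ i ∈ Icc 1 m, f i = ∑ k ∈ range m, f (k + 1) := by
  rw [range_eq_Ico, Finset.sum_Ico_add' f 0 m 1]
  apply Finset.sum_congr _ (fun _ _ => rfl)
  ext x
  simp only [mem_Icc, mem_Ico]
  omega

lemma tele (h : ℕ → ℝ) (i j : ℕ) (hij : i ≤ j) : ∑ e ∈ Ico i j, (h (e + 1) - h e) = h j - h i := by
  induction j, hij using Nat.le_induction with
  | base => simp
  | succ n hn ih => rw [Finset.sum_Ico_succ_top hn, ih]; ring

/-- the weight on one side of an edge -/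
lemma side (m e : ℕ) (he2 : e < m) :
    (∑ i ∈ Icc 1 m, if i ≤ e then ph m i ^ 2 else 0) *
      (∑ j ∈ Icc 1 m, if e < j then ph m j ^ 2 else 0) ≤
      (∑ i ∈ Icc 1 m, ph m i ^ 2) * (m * (ph m e * ph m (e + 1))) := by
  have hP0 : 0 ≤ ∑ i ∈ Icc 1 m, if i ≤ e then ph m i ^ 2 else 0 :=
    Finset.sum_nonneg (fun i _ => by split_ifs <;> positivity)
  have hQ0 : 0 ≤ ∑ j ∈ Icc 1 m, if e < j then ph m j ^ 2 else 0 :=
    Finset.sum_nonneg (fun i _ => by split_ifs <;> positivity)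
  have hP1 : (∑ i ∈ Icc 1 m, if i ≤ e then ph m i ^ 2 else 0) ≤ ∑ i ∈ Icc 1 m, ph m i ^ 2 :=
    Finset.sum_le_sum (fun i _ => by split_ifs <;> [exact le_rfl; positivity])
  have hQ1 : (∑ j ∈ Icc 1 m, if e < j then ph m j ^ 2 else 0) ≤ ∑ i ∈ Icc 1 m, ph m i ^ 2 :=
    Finset.sum_le_sum (fun i _ => by split_ifs <;> [exact le_rfl; positivity])
  have hPhi : 0 ≤ ∑ i ∈ Icc 1 m, ph m i ^ 2 := Finset.sum_nonneg (fun i _ => by positivity)
  have hpe : 0 ≤ ph m e := ph_nonneg (by omega)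
  have hpe' : 0 ≤ ph m (e + 1) := ph_nonneg (by omega)
  rcases le_total (2 * e) m with h | h
  · have hP2 : (∑ i ∈ Icc 1 m, if i ≤ e then ph m i ^ 2 else 0) ≤ m * (ph m e * ph m (e + 1)) := by
      have : ∀ i ∈ Icc 1 m, (if i ≤ e then ph m i ^ 2 else 0) ≤ ph m e * ph m (e + 1) := by
        intro i hi
        rw [mem_Icc] at hi
        split_ifs with hie
        · have h1 : ph m i ≤ ph m e := ph_inc hie (by omega)
          have h2 : ph m i ≤ ph m (e + 1) := ph_inc (by omega) (by omega)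
          have h3 : 0 ≤ ph m i := ph_nonneg (by omega)
          rw [sq]
          exact mul_le_mul h1 h2 h3 hpe
        · positivity
      refine (Finset.sum_le_sum this).trans (le_of_eq ?_)
      rw [Finset.sum_const, Nat.card_Icc, nsmul_eq_mul]
      simp
    calc _ ≤ (m * (ph m e * ph m (e + 1))) * ∑ i ∈ Icc 1 m, ph m i ^ 2 :=
          mul_le_mul hP2 hQ1 hQ0 (by positivity)
      _ = _ := by ring
  · have hQ2 : (∑ j ∈ Icc 1 m, if e < j then ph m j ^ 2 else 0) ≤ m * (ph m e * ph m (e + 1)) := by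
      have : ∀ j ∈ Icc 1 m, (if e < j then ph m j ^ 2 else 0) ≤ ph m e * ph m (e + 1) := by
        intro j hj
        rw [mem_Icc] at hj
        split_ifs with hje
        · have h1 : ph m j ≤ ph m e := ph_dec (by omega) (by omega) (by omega)
          have h2 : ph m j ≤ ph m (e + 1) := ph_dec (by omega) (by omega) (by omega)
          have h3 : 0 ≤ ph m j := ph_nonneg (by omega)
          rw [sq]
          exact mul_le_mul h1 h2 h3 hpe
        · positivity
      refine (Finset.sum_le_sum this).trans (le_of_eq ?_)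
      rw [Finset.sum_const, Nat.card_Icc, nsmul_eq_mul]
      simp
    exact mul_le_mul hP1 hQ2 hQ0 hPhi

/-- the weighted Poincare inequality -/
lemma poincare (m : ℕ) (h : ℕ → ℝ) :
    (∑ i ∈ Icc 1 m, ph m i ^ 2) * (∑ i ∈ Icc 1 m, ph m i ^ 2 * h i ^ 2) -
      (∑ i ∈ Icc 1 m, ph m i ^ 2 * h i) ^ 2 ≤
    (∑ i ∈ Icc 1 m, ph m i ^ 2) * ((m : ℝ) ^ 2 *
      ∑ e ∈ Ico 1 m, ph m e * ph m (e + 1) * (h (e + 1) - h e) ^ 2) := by
  set I := Icc 1 m with hI
  have e1 : (∑ i ∈ I, ph m i ^ 2) * (∑ i ∈ I, ph m i ^ 2 * h i ^ 2) -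
      (∑ i ∈ I, ph m i ^ 2 * h i) ^ 2 =
      (1 / 2) * ∑ i ∈ I, ∑ j ∈ I, ph m i ^ 2 * ph m j ^ 2 * (h i - h j) ^ 2 := by
    have : ∀ i j, ph m i ^ 2 * ph m j ^ 2 * (h i - h j) ^ 2 =
        (ph m i ^ 2 * h i ^ 2) * ph m j ^ 2 + ph m i ^ 2 * (ph m j ^ 2 * h j ^ 2) -
          2 * ((ph m i ^ 2 * h i) * (ph m j ^ 2 * h j)) := fun i j => by ring
    simp only [this, Finset.sum_add_distrib, Finset.sum_sub_distrib, ← Finset.mul_sum,
      ← Finset.sum_mul]
    ring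
  have e2 : ∀ i ∈ I, ∀ j ∈ I, (h i - h j) ^ 2 ≤ m * ∑ e ∈ Ico 1 m,
      ((if i ≤ e ∧ e < j then (h (e + 1) - h e) ^ 2 else 0) +
        (if j ≤ e ∧ e < i then (h (e + 1) - h e) ^ 2 else 0)) := by
    have key : ∀ i ∈ I, ∀ j ∈ I, i ≤ j → (h i - h j) ^ 2 ≤ m * ∑ e ∈ Ico 1 m,
      (if i ≤ e ∧ e < j then (h (e + 1) - h e) ^ 2 else 0) := by
      intro i hi j hj hij
      rw [hI, mem_Icc] at hi hj
      have h1 := tele h i j hij
      have h2 := sq_sum_le_card_mul_sum_sq (s := Ico i j) (f := fun e => h (e + 1) - h e)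
      rw [h1, Nat.card_Ico] at h2
      have h3 : (h i - h j) ^ 2 = (h j - h i) ^ 2 := by ring
      rw [h3]
      refine h2.trans ?_
      have h4 : ∑ e ∈ Ico 1 m, (if i ≤ e ∧ e < j then (h (e + 1) - h e) ^ 2 else 0) =
          ∑ e ∈ Ico i j, (h (e + 1) - h e) ^ 2 := by
        rw [← Finset.sum_filter]
        apply Finset.sum_congr _ (fun _ _ => rfl)
        ext x
        simp only [mem_filter, mem_Ico]
        omega
      rw [h4]
      apply mul_le_mul_of_nonneg_right _ (Finset.sum_nonneg (fun _ _ => by positivity))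
      exact_mod_cast (by omega : j - i ≤ m)
    intro i hi j hj
    rcases le_total i j with hij | hij
    · refine (key i hi j hj hij).trans ?_
      apply mul_le_mul_of_nonneg_left _ (Nat.cast_nonneg _)
      apply Finset.sum_le_sum
      intro e _
      have : 0 ≤ (if j ≤ e ∧ e < i then (h (e + 1) - h e) ^ 2 else 0) := by
        split_ifs <;> positivity
      linarith
    · have h3 : (h i - h j) ^ 2 = (h j - h i) ^ 2 := by ring
      rw [h3]
      refine (key j hj i hi hij).trans ?_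
      apply mul_le_mul_of_nonneg_left _ (Nat.cast_nonneg _)
      apply Finset.sum_le_sum
      intro e _
      have : 0 ≤ (if i ≤ e ∧ e < j then (h (e + 1) - h e) ^ 2 else 0) := by
        split_ifs <;> positivity
      linarith
  have e3 : ∑ i ∈ I, ∑ j ∈ I, ph m i ^ 2 * ph m j ^ 2 * (h i - h j) ^ 2 ≤
      2 * (m * ∑ e ∈ Ico 1 m, (h (e + 1) - h e) ^ 2 *
        ((∑ i ∈ I, if i ≤ e then ph m i ^ 2 else 0) * (∑ j ∈ I, if e < j then ph m j ^ 2 else 0))) := by
    have h1 : ∑ i ∈ I, ∑ j ∈ I, ph m i ^ 2 * ph m j ^ 2 * (h i - h j) ^ 2 ≤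
        ∑ i ∈ I, ∑ j ∈ I, ph m i ^ 2 * ph m j ^ 2 * (m * ∑ e ∈ Ico 1 m,
          ((if i ≤ e ∧ e < j then (h (e + 1) - h e) ^ 2 else 0) +
            (if j ≤ e ∧ e < i then (h (e + 1) - h e) ^ 2 else 0))) :=
      Finset.sum_le_sum (fun i hi => Finset.sum_le_sum (fun j hj =>
        mul_le_mul_of_nonneg_left (e2 i hi j hj) (by positivity)))
    refine h1.trans (le_of_eq ?_)
    have h2 : ∀ i j, ph m i ^ 2 * ph m j ^ 2 * (m * ∑ e ∈ Ico 1 m,
          ((if i ≤ e ∧ e < j then (h (e + 1) - h e) ^ 2 else 0) +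
            (if j ≤ e ∧ e < i then (h (e + 1) - h e) ^ 2 else 0))) =
        ∑ e ∈ Ico 1 m, (m * (h (e + 1) - h e) ^ 2 *
            ((if i ≤ e then ph m i ^ 2 else 0) * (if e < j then ph m j ^ 2 else 0)) +
          m * (h (e + 1) - h e) ^ 2 *
            ((if e < i then ph m i ^ 2 else 0) * (if j ≤ e then ph m j ^ 2 else 0))) := by
      intro i j
      rw [← mul_assoc, Finset.mul_sum]
      apply Finset.sum_congr rfl
      intro e _
      by_cases c1 : i ≤ e <;> by_cases c2 : e < j <;> by_cases c3 : j ≤ e <;>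
        by_cases c4 : e < i <;> simp only [c1, c2, c3, c4, and_true, and_false, if_true,
          if_false, and_self] <;> ring
    simp only [h2]
    rw [Finset.mul_sum, Finset.mul_sum]
    have h3 : ∀ (A : ℕ → ℕ → ℕ → ℝ), ∑ i ∈ I, ∑ j ∈ I, ∑ e ∈ Ico 1 m, A i j e =
        ∑ e ∈ Ico 1 m, ∑ i ∈ I, ∑ j ∈ I, A i j e := by
      intro A
      rw [Finset.sum_comm' (s := Ico 1 m) (t := fun _ => I) (t' := I) (s' := fun _ => Ico 1 m)
        (by intro x y; simp only [and_comm])]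
      apply Finset.sum_congr rfl
      intro i _
      rw [Finset.sum_comm]
    rw [h3]
    apply Finset.sum_congr rfl
    intro e _
    simp only [Finset.sum_add_distrib, ← Finset.mul_sum, ← Finset.sum_mul]
    ring
  rw [e1]
  have e4 : ∑ e ∈ Ico 1 m, (h (e + 1) - h e) ^ 2 *
        ((∑ i ∈ I, if i ≤ e then ph m i ^ 2 else 0) * (∑ j ∈ I, if e < j then ph m j ^ 2 else 0)) ≤
      ∑ e ∈ Ico 1 m, (h (e + 1) - h e) ^ 2 * ((∑ i ∈ I, ph m i ^ 2) * (m * (ph m e * ph m (e + 1)))) := by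
    apply Finset.sum_le_sum
    intro e he
    rw [mem_Ico] at he
    exact mul_le_mul_of_nonneg_left (side m e he.2) (by positivity)
  have e5 : ∑ e ∈ Ico 1 m, (h (e + 1) - h e) ^ 2 * ((∑ i ∈ I, ph m i ^ 2) * (m * (ph m e * ph m (e + 1)))) =
      (∑ i ∈ I, ph m i ^ 2) * (m * ∑ e ∈ Ico 1 m, ph m e * ph m (e + 1) * (h (e + 1) - h e) ^ 2) := by
    rw [Finset.mul_sum, Finset.mul_sum]
    apply Finset.sum_congr rfl
    intro e _
    ring
  have hm0 : (0 : ℝ) ≤ m := Nat.cast_nonneg _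
  calc _ ≤ (1 / 2) * (2 * (m * ∑ e ∈ Ico 1 m, (h (e + 1) - h e) ^ 2 *
        ((∑ i ∈ I, if i ≤ e then ph m i ^ 2 else 0) * (∑ j ∈ I, if e < j then ph m j ^ 2 else 0)))) := by
        gcongr
    _ = m * ∑ e ∈ Ico 1 m, (h (e + 1) - h e) ^ 2 *
        ((∑ i ∈ I, if i ≤ e then ph m i ^ 2 else 0) * (∑ j ∈ I, if e < j then ph m j ^ 2 else 0)) := by ring
    _ ≤ m * ((∑ i ∈ I, ph m i ^ 2) * (m * ∑ e ∈ Ico 1 m, ph m e * ph m (e + 1) * (h (e + 1) - h e) ^ 2)) := by
        rw [← e5]; gcongr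
    _ = _ := by ring

theorem taskGap : Pool.Agent.H308R3.DM.TaskGap := by
  intro m hm g g0 g1
  set lam : ℝ := Real.cos (Real.pi / (2 * (m + 1))) ^ 2 with hlam
  set h : ℕ → ℝ := fun i => g i / ph m i with hh
  have hg : ∀ i ≤ m + 1, g i = ph m i * h i := by
    intro i hi
    rcases Nat.eq_zero_or_pos i with h0 | h0
    · subst h0; rw [g0, ph_zero, zero_mul]
    · rcases Nat.lt_or_ge i (m + 1) with h2 | h2
      · have := (ph_pos h0 (by omega : i ≤ m)).ne'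
        rw [hh]
        field_simp
      · have : i = m + 1 := by omega
        subst this
        rw [g1, ph_last, zero_mul]
  -- the ground state identity
  have id1 : lam * ∑ i ∈ Icc 1 m, (g i) ^ 2 -
      ∑ i ∈ Icc 1 m, g i * ((g (i - 1) + 2 * g i + g (i + 1)) / 4) =
      (1 / 4) * ∑ e ∈ Ico 1 m, ph m e * ph m (e + 1) * (h (e + 1) - h e) ^ 2 := by
    have hT0 : ph m 0 * ph m (0 + 1) = 0 := by rw [ph_zero, zero_mul]
    have hTm : ph m m * ph m (m + 1) = 0 := by rw [ph_last, mul_zero]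
    have s1 : lam * ∑ i ∈ Icc 1 m, (g i) ^ 2 -
        ∑ i ∈ Icc 1 m, g i * ((g (i - 1) + 2 * g i + g (i + 1)) / 4) =
        (1 / 4) * (∑ k ∈ range m, ph m k * ph m (k + 1) * (h (k + 1) ^ 2 - h (k + 1) * h k) +
          ∑ k ∈ range m, ph m (k + 1) * ph m (k + 1 + 1) * (h (k + 1) ^ 2 - h (k + 1) * h (k + 1 + 1))) := by
      rw [conv, conv, ← Finset.sum_add_distrib, Finset.mul_sum, Finset.mul_sum,
        ← Finset.sum_sub_distrib]
      apply Finset.sum_congr rfl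
      intro k hk
      rw [mem_range] at hk
      have e1 := hg k (by omega)
      have e2 := hg (k + 1) (by omega)
      have e3 := hg (k + 1 + 1) (by omega)
      have e4 := ph_rec m k
      rw [← hlam] at e4
      rw [Nat.add_sub_cancel, e1, e2, e3]
      have e5 : lam * ph m (k + 1) = (ph m k + 2 * ph m (k + 1) + ph m (k + 1 + 1)) / 4 := by
        linear_combination -e4 / 4
      linear_combination (ph m (k + 1) * h (k + 1) ^ 2) * e5
    have s2 : ∑ k ∈ range m, ph m k * ph m (k + 1) * (h (k + 1) ^ 2 - h (k + 1) * h k) =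
        ∑ k ∈ range (m + 1), ph m k * ph m (k + 1) * (h (k + 1) ^ 2 - h (k + 1) * h k) := by
      rw [Finset.sum_range_succ, hTm, zero_mul, add_zero]
    have s3 : ∑ k ∈ range m, ph m (k + 1) * ph m (k + 1 + 1) * (h (k + 1) ^ 2 - h (k + 1) * h (k + 1 + 1)) =
        ∑ k ∈ range (m + 1), ph m k * ph m (k + 1) * (h k ^ 2 - h k * h (k + 1)) := by
      rw [Finset.sum_range_succ', hT0, zero_mul, add_zero]
    have s4 : ∑ e ∈ Ico 1 m, ph m e * ph m (e + 1) * (h (e + 1) - h e) ^ 2 =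
        ∑ e ∈ range (m + 1), ph m e * ph m (e + 1) * (h (e + 1) - h e) ^ 2 := by
      rw [Finset.sum_range_succ, hTm, zero_mul, add_zero, range_eq_Ico,
        Finset.sum_eq_sum_Ico_succ_bot (by omega : 0 < m), hT0, zero_mul, zero_add]
    rw [s1, s2, s3, s4, ← Finset.sum_add_distrib]
    congr 1
    apply Finset.sum_congr rfl
    intro e _
    ring
  -- the Poincare inequality
  have hp := poincare m h
  have hPhi : 0 < ∑ i ∈ Icc 1 m, ph m i ^ 2 := by
    apply Finset.sum_pos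
    · intro i hi
      rw [mem_Icc] at hi
      have := ph_pos hi.1 hi.2
      positivity
    · exact ⟨1, by rw [mem_Icc]; omega⟩
  have c1 : ∑ i ∈ Icc 1 m, ph m i ^ 2 * h i ^ 2 = ∑ i ∈ Icc 1 m, (g i) ^ 2 := by
    apply Finset.sum_congr rfl
    intro i hi
    rw [mem_Icc] at hi
    rw [hg i (by omega)]
    ring
  have c2 : ∑ i ∈ Icc 1 m, ph m i ^ 2 * h i = ∑ i ∈ Icc 1 m, g i * ph m i := by
    apply Finset.sum_congr rfl
    intro i hi
    rw [mem_Icc] at hi
    rw [hg i (by omega)]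
    ring
  rw [c1, c2] at hp
  have hm0 : (0 : ℝ) < m := by exact_mod_cast hm
  have hv : ∑ i ∈ Icc 1 m, (g i) ^ 2 - (∑ i ∈ Icc 1 m, g i * ph m i) ^ 2 / (∑ i ∈ Icc 1 m, ph m i ^ 2) ≤
      (m : ℝ) ^ 2 * ∑ e ∈ Ico 1 m, ph m e * ph m (e + 1) * (h (e + 1) - h e) ^ 2 := by
    rw [sub_le_iff_le_add, ← sub_le_iff_le_add', le_div_iff₀ hPhi]
    linarith
  have hv2 : (1 / (4 * (m : ℝ) ^ 2)) * (∑ i ∈ Icc 1 m, (g i) ^ 2 -
      (∑ i ∈ Icc 1 m, g i * ph m i) ^ 2 / (∑ i ∈ Icc 1 m, ph m i ^ 2)) ≤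
      (1 / 4) * ∑ e ∈ Ico 1 m, ph m e * ph m (e + 1) * (h (e + 1) - h e) ^ 2 := by
    calc _ ≤ (1 / (4 * (m : ℝ) ^ 2)) * ((m : ℝ) ^ 2 *
          ∑ e ∈ Ico 1 m, ph m e * ph m (e + 1) * (h (e + 1) - h e) ^ 2) := by gcongr
      _ = _ := by field_simp
  have hfin : ∑ i ∈ Icc 1 m, g i * ((g (i - 1) + 2 * g i + g (i + 1)) / 4) ≤
      lam * ∑ i ∈ Icc 1 m, (g i) ^ 2 - (1 / (4 * (m : ℝ) ^ 2)) * (∑ i ∈ Icc 1 m, (g i) ^ 2 -
      (∑ i ∈ Icc 1 m, g i * ph m i) ^ 2 / (∑ i ∈ Icc 1 m, ph m i ^ 2)) := by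
    linarith
  exact hfin

end Pool.Agent.H431R3.DM
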